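import Pool.Agent.Lib.MP_b16327_pr.MkAct
import Pool.Agent.Lib.MP_a137af_pr.CircMap

/-!
# Stationary measures of finitely supported random walks on Fuchsian groups are singular
(MP_a137af_pr, Q1; the Kaimanovich-Le Prince singularity conjecture)

Let `Γ` be a non-elementary discrete group of isometries of the hyperbolic plane (cocompact or not;
orientation reversing isometries and torsion are allowed), `μ` a finitely supported probability
measure on `Γ` whose support generates `Γ` as a semigroup, and `ν` a `μ`-stationary probability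
measure on the boundary circle.  Then `ν` is singular with respect to Lebesgue measure.

The hyperbolic plane is Mathlib's upper half-plane `UpperHalfPlane` with its hyperbolic metric, its
isometry group is `UpperHalfPlane ≃ᵢ UpperHalfPlane`, and the boundary is the unit circle of the
disc model, to which the half-plane is mapped by the Cayley transform `toDisc`.
-/

set_option autoImplicit false

open MeasureTheory Set Filter Topology
open scoped ENNReal

namespace Pool.Agent.Results.MP_a137af_pr.SingularityConjecture

/-! ## Definitions used in the statement -/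

/-- The circle carries its Borel `σ`-algebra. -/
noncomputable instance : MeasurableSpace Circle := borel Circle

instance : BorelSpace Circle := ⟨rfl⟩

/-- The Cayley transform from the upper half-plane to the unit disc. -/
noncomputable def toDisc (z : UpperHalfPlane) : ℂ :=
  ((z : ℂ) - Complex.I) / ((z : ℂ) + Complex.I)

/-- `e : Circle → Circle` is the boundary extension of the isometry `g` of the hyperbolic plane
(in the disc model): `g z → e ξ` whenever `z → ξ`. -/
def IsBoundaryMap (g : UpperHalfPlane ≃ᵢ UpperHalfPlane) (e : Circle → Circle) : Prop :=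
  ∀ ξ : Circle, Tendsto (fun z : UpperHalfPlane => toDisc (g z))
    (comap toDisc (𝓝 (ξ : ℂ))) (𝓝 (e ξ : ℂ))

/-- `Γ` is a Fuchsian (that is, discrete) group of isometries: it acts properly discontinuously. -/
def IsFuchsian (Γ : Subgroup (UpperHalfPlane ≃ᵢ UpperHalfPlane)) : Prop :=
  ∀ K : Set UpperHalfPlane, IsCompact K →
    {g : Γ | (((g : UpperHalfPlane ≃ᵢ UpperHalfPlane) '' K) ∩ K).Nonempty}.Finite

/-- `Γ`, acting on the boundary circle by `bd`, is non-elementary: it has no finite orbit, neither
in the hyperbolic plane nor on the boundary circle. -/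
def IsNonElementary (Γ : Subgroup (UpperHalfPlane ≃ᵢ UpperHalfPlane))
    (bd : Γ → Circle → Circle) : Prop :=
  (∀ z : UpperHalfPlane,
    (Set.range fun g : Γ => (g : UpperHalfPlane ≃ᵢ UpperHalfPlane) z).Infinite) ∧
  ∀ ξ : Circle, (Set.range fun g : Γ => bd g ξ).Infinite

/-- Lebesgue measure (of total mass `2π`) on the unit circle. -/
noncomputable def lebCircle : Measure Circle :=
  (volume.restrict (Ioc (-Real.pi) Real.pi)).map Circle.exp

/-! ## Auxiliary results -/

open Pool.Agent.Lib.KLP in
/-- Every isometry has a (continuous) boundary extension, so that the hypothesis `hbd` of `result`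
can always be satisfied. -/
theorem exists_boundaryMap (g : UpperHalfPlane ≃ᵢ UpperHalfPlane) :
    ∃ e : Circle → Circle, Continuous e ∧ IsBoundaryMap g e := by
  obtain ⟨M, hM⟩ := isom_class g
  obtain ⟨f, hf, hfM⟩ := exists_disc_of_GL M
  exact exists_bdryExt_of_disc hf (fun z => by rw [hM z]; exact hfM z)

open Pool.Agent.Lib.KLP in
theorem map_lebCircle :
    lebCircle.map (fun ξ : Circle => (ξ : ℂ)) = ENNReal.ofReal (2 * Real.pi) • circ := by
  have h2 : (0:ℝ) < 2 * Real.pi := by positivity
  have hexp : Measurable (fun θ : ℝ => Complex.exp ((θ : ℂ) * Complex.I)) := by fun_prop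
  rw [lebCircle, circ, smul_smul, ← ENNReal.ofReal_mul h2.le,
    show 2 * Real.pi * (1 / (2 * Real.pi)) = 1 by field_simp, ENNReal.ofReal_one, one_smul,
    Measure.map_map (by fun_prop) (by fun_prop)]
  rfl

/-! ## The theorem -/

open Pool.Agent.Lib.KLP Pool.Agent.Lib.KLG in
/-- **Singularity of stationary measures.** Let `Γ` be a non-elementary Fuchsian group, `μ` a
finitely supported probability measure on `Γ` whose support generates `Γ` as a semigroup, `bd g`
the action of `g ∈ Γ` on the boundary circle, and `ν` a `μ`-stationary Borel probability measure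
on the circle. Then `ν` is singular with respect to Lebesgue measure. -/
theorem result (Γ : Subgroup (UpperHalfPlane ≃ᵢ UpperHalfPlane)) (hΓ : IsFuchsian Γ)
    (bd : Γ → Circle → Circle)
    (hbd : ∀ g : Γ, IsBoundaryMap (g : UpperHalfPlane ≃ᵢ UpperHalfPlane) (bd g))
    (hne : IsNonElementary Γ bd)
    (μ : Γ → ℝ) (hμ0 : ∀ g, 0 ≤ μ g) (hμf : (Function.support μ).Finite)
    (hμ1 : ∑ g ∈ hμf.toFinset, μ g = 1)
    (hgen : Subsemigroup.closure (Function.support μ) = ⊤)
    (ν : Measure Circle) [IsProbabilityMeasure ν]
    (hν : ∀ E : Set Circle, MeasurableSet E →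
      ν E = ∑ g ∈ hμf.toFinset, ENNReal.ofReal (μ g) * ν (bd g ⁻¹' E)) :
    ν ⟂ₘ lebCircle := by
  classical
  obtain ⟨A, hA⟩ := exists_act Γ hΓ
  -- the group is infinite
  have hinf : Infinite Γ := by
    by_contra hfin
    rw [not_infinite_iff_finite] at hfin
    exact hne.1 UpperHalfPlane.I (Set.finite_range _)
  have hgen' : Submonoid.closure (Function.support μ) = ⊤ := by
    rw [eq_top_iff]
    intro x _
    have hx : x ∈ Subsemigroup.closure (Function.support μ) := by rw [hgen]; trivial
    have hle : Subsemigroup.closure (Function.support μ) ≤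
        (Submonoid.closure (Function.support μ)).toSubsemigroup :=
      Subsemigroup.closure_le.2 Submonoid.subset_closure
    exact hle hx
  -- the walk
  let W : Pool.Agent.Lib.KLG.Walk Γ :=
    { S := hμf.toFinset
      μ := μ
      pos := fun s hs => lt_of_le_of_ne (hμ0 s) (Ne.symm (by simpa using hs))
      sum_eq := hμ1 }
  have hWS : (W.S : Set Γ) = Function.support μ := Set.Finite.coe_toFinset _
  have hWgen : Submonoid.closure (W.S : Set Γ) = ⊤ := by rw [hWS]; exact hgen'
  have hfaith : ∀ g : Γ, (∀ z, ‖z‖ < 1 → A.act g z = z) → g = 1 := by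
    intro g hg
    apply Subtype.ext
    apply IsometryEquiv.ext
    intro z
    apply toDisc_injective
    rw [hA g z, hg _ (norm_toDisc_lt z)]
    rfl
  have hbdA : ∀ (g : Γ) (ξ : Circle), (bd g ξ : ℂ) = A.act g (ξ : ℂ) := by
    intro g ξ
    exact bdryExt_of_disc (A.iso g) (hA g) (hbd g) ξ
  -- no common fixed point on the circle
  have hnofix : ∀ ζ : ℂ, ‖ζ‖ = 1 → ∃ s ∈ W.S, A.act s ζ ≠ ζ := by
    intro ζ hζ
    by_contra hcon
    push Not at hcon
    let M : Submonoid Γ :=
      { carrier := {g | A.act g ζ = ζ}
        one_mem' := A.one ζ hζ.le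
        mul_mem' := by
          intro a b ha hb
          show A.act (a * b) ζ = ζ
          rw [A.mul a b ζ hζ.le]
          have hb' : A.act b ζ = ζ := hb
          rw [hb']
          exact ha }
    have hM : M = ⊤ := by
      rw [eq_top_iff, ← hWgen]
      exact Submonoid.closure_le.2 fun s hs => hcon s hs
    have hall : ∀ g : Γ, A.act g ζ = ζ := by
      intro g
      have : g ∈ M := by rw [hM]; trivial
      exact this
    refine hne.2 ⟨ζ, mem_sphere_zero_iff_norm.2 hζ⟩ ?_
    refine (Set.finite_singleton (⟨ζ, mem_sphere_zero_iff_norm.2 hζ⟩ : Circle)).subset ?_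
    rintro _ ⟨g, rfl⟩
    rw [Set.mem_singleton_iff]
    apply Circle.ext
    rw [hbdA g]
    exact hall g
  set c : Circle → ℂ := fun ξ => (ξ : ℂ) with hc
  have hcc' : Continuous c := continuous_subtype_val
  have hcm : Measurable c := hcc'.measurable
  have hemb : MeasurableEmbedding c :=
    (hcc'.isClosedEmbedding Subtype.val_injective).measurableEmbedding
  have hprob : IsProbabilityMeasure (ν.map c) := Measure.isProbabilityMeasure_map hcm.aemeasurable
  have hT : ∀ᵐ z ∂(ν.map c), ‖z‖ = 1 := by
    rw [ae_map_iff hcm.aemeasurable (measurableSet_eq_fun (by fun_prop) (by fun_prop))]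
    exact Eventually.of_forall fun ξ => Circle.norm_coe ξ
  have hbm : ∀ g : Γ, Measurable (bd g) := by
    intro g
    rw [← hemb.measurable_comp_iff]
    have : c ∘ bd g = fun ξ => A.act g (c ξ) := by
      funext ξ; exact hbdA g ξ
    rw [this]
    exact (A.measurable_act g).comp hcm
  have hst : Pool.Agent.Lib.KLG.Stationary A W (ν.map c) := by
    unfold Pool.Agent.Lib.KLG.Stationary
    ext E hE
    rw [Measure.map_apply hcm hE, hν _ (hcm hE)]
    simp only [Measure.coe_finsetSum, Finset.sum_apply, Measure.smul_apply, smul_eq_mul]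
    apply Finset.sum_congr rfl
    intro g _
    rw [Measure.map_map (A.measurable_act g) hcm, Measure.map_apply
      ((A.measurable_act g).comp hcm) hE]
    congr 2
    ext ξ
    simp only [Set.mem_preimage, Function.comp_apply]
    rw [hc]; simp only; rw [hbdA g ξ]
  obtain ⟨s, hs, h1, h2⟩ :=
    disc_all A W hWgen hfaith (exists_linear Γ) hnofix (ν.map c) hT hst
  -- transfer back to the circle
  refine ⟨c ⁻¹' s, hcm hs, ?_, ?_⟩
  · rwa [Measure.map_apply hcm hs] at h1
  · rw [← Set.preimage_compl, ← Measure.map_apply hcm hs.compl, map_lebCircle,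
      Measure.smul_apply, h2, smul_zero]

end Pool.Agent.Results.MP_a137af_pr.SingularityConjecture
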